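import Pool.Agent.H577R2.Reach

/-!
# Chip-firing reachability on general digraphs is co-NP-hard

The reduction is from the complement of 3SAT.  A 3SAT instance is turned into the question whether
some multiset of exactly `k` given integer vectors has a given sum.  The vectors become elements of
the class group (Picard group) of an explicit digraph with a sink, in which every arc goes back or
one step forward; its class group is a product of cyclic groups of small order `q`.  Effective
divisors equivalent to `k` chips on the first vertex are exactly the solutions (besides the trivial
one), and each of them gives a nonnegative script, i.e. a configuration in which the game towards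
the target gets stuck.  Subdividing all arcs makes the digraph simple.
-/

namespace Pool.Agent.Results.MP_5100e0_lc.ReachabilityCoNPHard

open Pool.Agent.NPC Pool.Agent.H577R2

/-- Chip-firing reachability is co-NP-hard, both for simple digraphs and for multigraphs. -/
theorem result : CoNPHard (lang SimpleReach) ∧ CoNPHard (lang MultiReach) :=
  ⟨Pool.Agent.NPC.H577R2.coNPHard_of Pool.Agent.NPC.H577R2.hard_simple,
    Pool.Agent.NPC.H577R2.coNPHard_of Pool.Agent.NPC.H577R2.hard_multi⟩

end Pool.Agent.Results.MP_5100e0_lc.ReachabilityCoNPHard
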